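import Pool.Agent.Lib.MP_557161_ag.HC.All3
import Pool.Agent.Lib.MP_557161_ag.HG.ZY

/-!
Tate classes of middle codimension on cyclic covers of prime degree of projective spaces of even
dimension in hypergeometric families are algebraic in every realisation on which correspondences
act.
-/

namespace Pool.Agent.Lib.MP_60ec62_ag.Old.CyclicCovers

open MvPolynomial Pool.Agent.Lib.MP_557161_ag.DL
open Pool.Agent.Lib.MP_557161_ag.HG (TateAt ZY_thm)
open Pool.Agent.Lib.MP_557161_ag.HG.HN.HC (dpI all)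

theorem result (k : Type) [Field k] [Finite k] (d m e u n : ℕ) (a w : Fin (2 * d + 1) → ℕ)
    (lam : k) (hd : 0 < d) (hm : m.Prime) (hq : m ∣ Nat.card k + 1) (hu : u + 1 = m * e)
    (hn : n * (u + 1) = u ^ (2 * d + 1) + 1) (hw : ∀ i, n * w i = u * a i + a (i - 1))
    (hod : ∀ i, Odd (a i)) (hsum : ∑ i, w i = m * e) (hcop : Finset.univ.gcd a = 1)
    (hnd : ¬ m ∣ n * ∏ i, a i) (hch : ((m * e * n * ∏ i, a i : ℕ) : k) ≠ 0) (h0 : lam ≠ 0)
    (hdisc : lam ^ n * ∏ i, (a i : k) ^ a i ≠ (-(n : k)) ^ n)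
    (F : MvPolynomial (Fin (2 * d + 1)) k)
    (hF : F = ∑ i, X i ^ u * X (i + 1) + C lam * ∏ i, X i ^ w i)
    (L : ℕ → Type) [∀ j, Field (L j)] [∀ j, Algebra k (L j)]
    (hL : ∀ j, Module.finrank k (L j) = j + 1) :
    (Homog (dpI m e F) ∧ ∀ s, Algebra.Smooth k (Chart (dpI m e F) s)) ∧
      ∃ ζ : ℂ → ℂ, IsZeta (dpI m e F) (2 * d) L ζ ∧
      (((-3 * (m - 1) : ℤ) : WithTop ℤ) ≤ meromorphicOrderAt ζ d +
          meromorphicOrderAt ζ (d + Real.pi * Complex.I / Real.log (Nat.card k)) →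
        TateAt (Nat.card k) d ((dpI m e F).map (map (algebraMap k (AlgebraicClosure k))))) := by
  subst hF
  have := ZY_thm
  obtain ⟨h1, ζ, h2, h3⟩ := all hd hm hq hu hn hw hod hsum hcop hnd hch h0 hdisc L hL
  exact ⟨⟨h1.1, h1.2.1⟩, ζ, h2, fun h => (h3 h).2⟩

end Pool.Agent.Lib.MP_60ec62_ag.Old.CyclicCovers
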