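import Pool.Agent.Lib.MP_557161_ag.MC.All3
import Pool.Agent.Lib.MP_557161_ag.HG.ZY

/-!
Tate classes on smooth projective models of the double covers
`z ^ 2 = lam + x 1 + ... + x (2 d) + 1 / (x 1 ... x (2 d))` of a torus are algebraic in every
realisation on which correspondences act.
-/

namespace Pool.Agent.Lib.MP_60ec62_ag.Old.MirrorCovers

open MvPolynomial Pool.Agent.Lib.MP_557161_ag.DL
open Pool.Agent.Lib.MP_557161_ag.HG (TateAt ZY_thm)
open Pool.Agent.Lib.MP_557161_ag.HG.MC (mcI final2)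

theorem result (d : ℕ) (hd : 0 < d) : ∃ (σ : Type) (_ : Finite σ)
    (m : σ → Option (Fin (2 * d)) → ℕ),
    AddSubgroup.closure (Set.range fun s : σ × σ => fun l => (m s.1 l : ℤ) - m s.2 l) = ⊤ ∧
    ∀ p : ℕ, p.Prime → ¬ p ∣ 2 * (2 * d + 1) → ∃ H : Polynomial (ZMod p), H ≠ 0 ∧
      ∀ (k : Type) [Field k] [Finite k] [Algebra (ZMod p) k] (lam : k),
        Polynomial.aeval lam H ≠ 0 →
        (Homog (mcI m lam) ∧ (∀ s, Algebra.Smooth k (Chart (mcI m lam) s)) ∧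
          ∀ Z ∈ (mcI m lam).minimalPrimes, ringKrullDim (_ ⧸ Z) = (2 * d + 1 : ℕ)) ∧
        ∀ i, TateAt (Nat.card k) i ((mcI m lam).map (map (algebraMap k (AlgebraicClosure k)))) := by
  obtain ⟨σ, _, m, h1, h2⟩ := final2 d hd
  refine ⟨σ, inferInstance, m, h1, fun p hp hn => (h2 p hp hn).imp fun H h => ⟨h.1, ?_⟩⟩
  intro k _ _ _ lam e
  have := ZY_thm
  have : Fact (ringChar k).Prime := ⟨CharP.char_is_prime k _⟩
  obtain ⟨h3, h4⟩ := h.2 k lam e
  exact ⟨⟨h3.1, h3.2.1, h3.2.2.1⟩, (h4 (fun j => FiniteField.Extension k (ringChar k) (j + 1))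
    fun j => FiniteField.finrank_extension k _ _).2⟩

end Pool.Agent.Lib.MP_60ec62_ag.Old.MirrorCovers
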