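import Pool.Agent.Lib.MP_557161_ag.DL.Rl

/-!
Tate classes on the smooth compactifications of the Deligne-Lusztig varieties of orthogonal and
symplectic groups in odd characteristic are algebraic in every realisation on which
correspondences act.
-/

namespace Pool.Agent.Lib.MP_60ec62_ag.Old.OrthSympTate

open MvPolynomial Matrix Pool.Agent.Lib.MP_557161_ag.DL

theorem result (p e N l : ℕ) (hp : p.Prime) (hp2 : p ≠ 2) (he : 0 < e)
    (k : Type) [Field k] [Finite k] [CharP k p]
    (G : Matrix (Fin N) (Fin N) k) (hG : Gᵀ = G ∨ Gᵀ = -G) (hdet : G.det ≠ 0)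
    (hq : ∀ i j, G i j ^ p ^ e = G i j) (w : Fin l → Fin (N / 2))
    (C : Set (Ideal (MvPolynomial (Idx (Fin N) (N / 2) l) k)))
    (hC : C ⊆ (ideal k G (p ^ e) w).minimalPrimes) :
    (Homog (sInf C) ∧ ∀ s, Algebra.Smooth k (Chart (sInf C) s)) ∧
      Rl.Tate (Nat.card k) ((sInf C).map (map (algebraMap k (AlgebraicClosure k)))) := by
  have hF : Form G (p ^ e) := ⟨⟨p, e, hp, hp2, inferInstance, he, rfl⟩, hG, hdet, hq⟩
  have hn : N / 2 = Fintype.card (Fin N) / 2 := by rw [Fintype.card_fin]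
  have g1 := model_homog (G := G) (q := p ^ e) w
  have g2 := model_smooth hF hn w
  exact ⟨⟨comp_homog g1 hC, fun s => comp_smooth g1 hC (g2 s)⟩,
    Rl.tate (comp_homog g1 hC) (comp_ck g1 g2 hC (ck_model hF hn w)).van⟩

end Pool.Agent.Lib.MP_60ec62_ag.Old.OrthSympTate
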