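import Mathlib
import Pool.Agent.Lib.MP_60ec62_ag.DL.Induct
import Pool.Agent.Lib.MP_60ec62_ag.DL.BruhatB
import Pool.Agent.Lib.MP_60ec62_ag.DL.StmB

/-!
The Chow groups of the Deligne-Lusztig varieties of the finite unitary groups, and of their
Demazure compactifications, over any algebraically closed field are spanned by subvarieties
defined over subfields of transcendence degree at most one.
-/

namespace Pool.Agent.Lib.MP_60ec62_ag.Old.UnitaryDL

open Pool.Agent.Lib.MP_60ec62_ag.DL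

theorem result (p e : ℕ) [Fact p.Prime] (he : 0 < e) (K : Type) [Field K] [IsAlgClosed K]
    [CharP K p] (n l : ℕ) (s : Fin l → ℕ) (ρ : ℕ → ℕ → ℕ) :
    ∀ P ∈ Stm.Sub K n (p ^ e) s ρ, Stm.Gen (Stm.Bor K n _) (Stm.Sub K n (p ^ e) s ρ)
      {Q ∈ Stm.Sub K n (p ^ e) s ρ | Stm.Small Q} (Stm.cl P) := by
  have hp : IsPP p (p ^ e) := ⟨e, he, rfl⟩
  exact final' s ρ (chain p (lc_Dset s ρ) (fun x hx => hx.1.1) (stSet_Dset hp s ρ)
    (dem (fun ρ' => bruhat hp (c_all hp n) ρ') s ρ).drop)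

end Pool.Agent.Lib.MP_60ec62_ag.Old.UnitaryDL
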